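import Pool.Agent.H84.GL.Targets2
import Pool.Agent.H22.LPP.Prob

/-!
# Module EXP: expectation bounds
-/

open MeasureTheory ProbabilityTheory
open scoped ENNReal

namespace Pool.Agent.H65.GL

open Pool.Agent.H84.GL Pool.Agent.H99.NS

/-- Second moment from an exponential tail. -/
theorem second_moment {Ω : Type*} [MeasurableSpace Ω] (μ : Measure Ω) [IsProbabilityMeasure μ]
    (Y : Ω → ℝ) (hY : Measurable Y) (h0 : ∀ ω, 0 ≤ Y ω) (A c : ℝ) (hA : 0 ≤ A) (hc : 0 < c)
    (h : ∀ i : ℕ, μ {ω | (i:ℝ) ≤ Y ω} ≤ ENNReal.ofReal (A * Real.exp (-(c * i)))) :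
    ∫⁻ ω, ENNReal.ofReal (Y ω ^ 2) ∂μ ≤
      ENNReal.ofReal (∑' i : ℕ, (2 * (i:ℝ) + 1) * (A * Real.exp (-(c * i)))) := by
  have hE : ∀ i : ℕ, MeasurableSet {ω | (i:ℝ) ≤ Y ω} := fun i => measurableSet_le measurable_const hY
  have hpt : ∀ ω, ENNReal.ofReal (Y ω ^ 2) ≤ ∑' i : ℕ, ENNReal.ofReal (2 * (i:ℝ) + 1) *
      ({ω | (i:ℝ) ≤ Y ω}).indicator (fun _ => (1:ℝ≥0∞)) ω := by
    intro ω
    set n : ℕ := ⌊Y ω⌋₊ with hn
    have hn1 : (n : ℝ) ≤ Y ω := Nat.floor_le (h0 ω)
    have hn2 : Y ω ≤ n + 1 := (Nat.lt_floor_add_one _).le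
    have hsum : ∀ m : ℕ, ∑ i ∈ Finset.range m, (2 * (i:ℝ) + 1) = (m:ℝ) ^ 2 := by
      intro m
      induction m with
      | zero => simp
      | succ m ih => rw [Finset.sum_range_succ, ih]; push_cast; ring
    calc ENNReal.ofReal (Y ω ^ 2) ≤ ENNReal.ofReal (((n + 1 : ℕ) : ℝ) ^ 2) := by
          apply ENNReal.ofReal_le_ofReal
          have := h0 ω
          push_cast
          gcongr
      _ = ∑ i ∈ Finset.range (n+1), ENNReal.ofReal (2 * (i:ℝ) + 1) *
            ({ω | (i:ℝ) ≤ Y ω}).indicator (fun _ => (1:ℝ≥0∞)) ω := by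
          rw [← hsum, ENNReal.ofReal_sum_of_nonneg (fun i _ => by positivity)]
          refine Finset.sum_congr rfl fun i hi => ?_
          have hi' : (i:ℝ) ≤ n := by
            have := Finset.mem_range.1 hi
            exact_mod_cast Nat.lt_succ_iff.1 this
          rw [Set.indicator_of_mem (show ω ∈ {ω | (i:ℝ) ≤ Y ω} from hi'.trans hn1), mul_one]
      _ ≤ _ := ENNReal.sum_le_tsum _
  have hsm : Summable (fun i : ℕ => (2 * (i:ℝ) + 1) * (A * Real.exp (-(c * i)))) := by
    have hr : ‖Real.exp (-c)‖ < 1 := by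
      rw [Real.norm_eq_abs, abs_of_pos (Real.exp_pos _), Real.exp_lt_one_iff]; linarith
    have h1 := summable_pow_mul_geometric_of_norm_lt_one 1 hr
    have h2 := summable_pow_mul_geometric_of_norm_lt_one 0 hr
    have h3 := ((h1.mul_left 2).add h2).mul_left A
    refine h3.congr fun i => ?_
    rw [← Real.exp_nat_mul]
    rw [show (i:ℝ) * -c = -(c * i) by ring]
    simp only [pow_one, pow_zero, one_mul]
    ring
  calc ∫⁻ ω, ENNReal.ofReal (Y ω ^ 2) ∂μ
      ≤ ∫⁻ ω, ∑' i : ℕ, ENNReal.ofReal (2 * (i:ℝ) + 1) *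
          ({ω | (i:ℝ) ≤ Y ω}).indicator (fun _ => (1:ℝ≥0∞)) ω ∂μ := lintegral_mono hpt
    _ = ∑' i : ℕ, ENNReal.ofReal (2 * (i:ℝ) + 1) * μ {ω | (i:ℝ) ≤ Y ω} := by
        rw [lintegral_tsum]
        · refine tsum_congr fun i => ?_
          rw [lintegral_const_mul' _ _ ENNReal.ofReal_ne_top,
            lintegral_indicator_const (hE i), one_mul]
        · intro i
          exact (measurable_const.mul (measurable_const.indicator (hE i))).aemeasurable
    _ ≤ ∑' i : ℕ, ENNReal.ofReal ((2 * (i:ℝ) + 1) * (A * Real.exp (-(c * i)))) := by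
        refine ENNReal.tsum_le_tsum fun i => ?_
        rw [ENNReal.ofReal_mul (by positivity)]
        gcongr
        exact h i
    _ = _ := by
        rw [ENNReal.ofReal_tsum_of_nonneg _ hsm]
        intro i; positivity

/-- The second moment as an integral. -/
theorem second_moment' {Ω : Type*} [MeasurableSpace Ω] (μ : Measure Ω) [IsProbabilityMeasure μ]
    (Y : Ω → ℝ) (hY : Measurable Y) (h0 : ∀ ω, 0 ≤ Y ω) (A c : ℝ) (hA : 0 ≤ A) (hc : 0 < c)
    (h : ∀ i : ℕ, μ {ω | (i:ℝ) ≤ Y ω} ≤ ENNReal.ofReal (A * Real.exp (-(c * i)))) :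
    Integrable (fun ω => Y ω ^ 2) μ ∧
    ∫ ω, Y ω ^ 2 ∂μ ≤ ∑' i : ℕ, (2 * (i:ℝ) + 1) * (A * Real.exp (-(c * i))) := by
  have h1 := second_moment μ Y hY h0 A c hA hc h
  have hK : 0 ≤ ∑' i : ℕ, (2 * (i:ℝ) + 1) * (A * Real.exp (-(c * i))) :=
    tsum_nonneg fun i => by positivity
  have hnn : 0 ≤ᵐ[μ] fun ω => Y ω ^ 2 := Filter.Eventually.of_forall fun ω => sq_nonneg _
  constructor
  · refine ⟨(hY.pow_const 2).aestronglyMeasurable, ?_⟩
    rw [hasFiniteIntegral_iff_ofReal hnn]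
    exact lt_of_le_of_lt h1 ENNReal.ofReal_lt_top
  · rw [integral_eq_lintegral_of_nonneg_ae hnn (hY.pow_const 2).aestronglyMeasurable]
    exact ENNReal.toReal_le_of_le_ofReal hK h1

theorem integrable_exp (h_UTM : D_UTM) (q : ℝ) (hq : 0 < q) (hq1 : q < 1) :
    ∃ C l₀ : ℝ, 0 < C ∧ 0 < l₀ ∧ ∀ lam : ℝ, 0 ≤ lam → lam ≤ l₀ → ∀ u v : Site, Reach u v →
      u.1 < v.1 → Integrable (fun ω => Real.exp (lam * T ω u v)) (PE q) ∧
      ∫ ω, Real.exp (lam * T ω u v) ∂(PE q) ≤
        Real.exp (lam * par q u v + C * (len u v * lam ^ 3 + lam)) := by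
  obtain ⟨C, l₀, hC, hl₀, h⟩ := h_UTM q hq hq1
  refine ⟨C, l₀, hC, hl₀, ?_⟩
  intro lam hlam hle u v hR huv
  have h1 := h lam hlam hle u v hR huv
  unfold ex at h1
  have hT : Measurable (fun ω => T ω u v) := Pool.Agent.H22.LPP.measurable_T u v
  have hm : Measurable (fun ω => Real.exp (lam * T ω u v)) :=
    Real.measurable_exp.comp (hT.const_mul lam)
  have hnn : 0 ≤ᵐ[PE q] fun ω => Real.exp (lam * T ω u v) :=
    Filter.Eventually.of_forall fun ω => (Real.exp_pos _).le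
  constructor
  · refine ⟨hm.aestronglyMeasurable, ?_⟩
    rw [hasFiniteIntegral_iff_ofReal hnn]
    exact lt_of_le_of_lt h1 ENNReal.ofReal_lt_top
  · rw [integral_eq_lintegral_of_nonneg_ae hnn hm.aestronglyMeasurable]
    exact ENNReal.toReal_le_of_le_ofReal (Real.exp_pos _).le h1

theorem memLp_T (h_UTM : D_UTM) (q : ℝ) (hq : 0 < q) (hq1 : q < 1) (u v : Site)
    (hR : Reach u v) (huv : u.1 < v.1) : MemLp (fun ω => T ω u v) 2 (PE q) := by
  obtain ⟨C, l₀, hC, hl₀, h⟩ := integrable_exp h_UTM q hq hq1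
  have hT : Measurable (fun ω => T ω u v) := Pool.Agent.H22.LPP.measurable_T u v
  rw [memLp_two_iff_integrable_sq hT.aestronglyMeasurable]
  have h1 := (h l₀ hl₀.le le_rfl u v hR huv).1.const_mul (2 / l₀ ^ 2)
  refine h1.mono' (hT.pow_const 2).aestronglyMeasurable (Filter.Eventually.of_forall fun ω => ?_)
  rw [Real.norm_eq_abs, abs_of_nonneg (sq_nonneg _)]
  have h2 : 0 ≤ l₀ * T ω u v := mul_nonneg hl₀.le (Pool.Agent.H22.LPP.T_nonneg ω u v)
  have h3 := Real.quadratic_le_exp_of_nonneg h2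
  have h4 : (l₀ * T ω u v) ^ 2 / 2 ≤ Real.exp (l₀ * T ω u v) := by linarith
  have h5 : T ω u v ^ 2 = 2 / l₀ ^ 2 * ((l₀ * T ω u v) ^ 2 / 2) := by
    field_simp
  rw [h5]
  gcongr

theorem exp_upper (h_UTM : D_UTM) (q : ℝ) (hq : 0 < q) (hq1 : q < 1) :
    ∃ C : ℝ, 0 < C ∧ ∀ u v : Site, Reach u v → u.1 < v.1 →
      ∫ ω, T ω u v ∂(PE q) ≤ par q u v + C := by
  obtain ⟨C, l₀, hC, hl₀, h⟩ := integrable_exp h_UTM q hq hq1
  refine ⟨2 * C * Real.exp (2 * C * l₀), by positivity, ?_⟩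
  intro u v hR huv
  have hN : 1 ≤ len u v := by
    unfold len
    have : 1 ≤ v.1 - u.1 := by omega
    exact_mod_cast this
  set N : ℝ := len u v with hNdef
  set lam : ℝ := min l₀ (1 / √N) with hlam
  have hsN : 0 < √N := Real.sqrt_pos.2 (by linarith)
  have hlam0 : 0 < lam := lt_min hl₀ (by positivity)
  have hle : lam ≤ l₀ := min_le_left _ _
  have hle2 : lam ≤ 1 / √N := min_le_right _ _
  have hN2 : N * lam ^ 2 ≤ 1 := by
    have h1 : lam ^ 2 ≤ (1 / √N) ^ 2 := by gcongr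
    have h2 : (1 / √N) ^ 2 = 1 / N := by
      rw [div_pow, one_pow, Real.sq_sqrt (by linarith)]
    calc N * lam ^ 2 ≤ N * (1 / N) := by rw [← h2]; gcongr
      _ = 1 := by field_simp
  have hN3 : N * lam ^ 3 ≤ lam := by
    calc N * lam ^ 3 = (N * lam ^ 2) * lam := by ring
      _ ≤ 1 * lam := by gcongr
      _ = lam := one_mul _
  obtain ⟨hi, hb⟩ := h lam hlam0.le hle u v hR huv
  have hTi : Integrable (fun ω => T ω u v) (PE q) :=
    (memLp_T h_UTM q hq hq1 u v hR huv).integrable (by norm_num)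
  have hs1 : Integrable (fun ω => T ω u v - par q u v) (PE q) := hTi.sub (integrable_const _)
  have hs2 : Integrable (fun ω => lam * (T ω u v - par q u v)) (PE q) := hs1.const_mul _
  have h1 : 1 + lam * (∫ ω, T ω u v ∂(PE q) - par q u v) ≤
      Real.exp (-(lam * par q u v)) * ∫ ω, Real.exp (lam * T ω u v) ∂(PE q) := by
    rw [← integral_const_mul]
    have e1 : 1 + lam * (∫ ω, T ω u v ∂(PE q) - par q u v) =
        ∫ ω, (1 + lam * (T ω u v - par q u v)) ∂(PE q) := by
      rw [integral_add (integrable_const _) hs2,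
        integral_const_mul, integral_sub hTi (integrable_const _)]
      simp
    rw [e1]
    refine integral_mono ((integrable_const _).add hs2)
      (hi.const_mul _) fun ω => ?_
    simp only
    rw [← Real.exp_add]
    have := Real.add_one_le_exp (-(lam * par q u v) + lam * T ω u v)
    calc 1 + lam * (T ω u v - par q u v) = -(lam * par q u v) + lam * T ω u v + 1 := by ring
      _ ≤ _ := this
  have h2 : Real.exp (-(lam * par q u v)) * ∫ ω, Real.exp (lam * T ω u v) ∂(PE q) ≤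
      Real.exp (2 * C * lam) := by
    calc Real.exp (-(lam * par q u v)) * ∫ ω, Real.exp (lam * T ω u v) ∂(PE q)
        ≤ Real.exp (-(lam * par q u v)) *
            Real.exp (lam * par q u v + C * (N * lam ^ 3 + lam)) := by gcongr
      _ = Real.exp (C * (N * lam ^ 3 + lam)) := by rw [← Real.exp_add]; congr 1; ring
      _ ≤ Real.exp (2 * C * lam) := by
          apply Real.exp_le_exp.2
          nlinarith
  have h3 : Real.exp (2 * C * lam) ≤ 1 + 2 * C * lam * Real.exp (2 * C * l₀) := by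
    have h4 : -(2 * C * lam) + 1 ≤ Real.exp (-(2 * C * lam)) := Real.add_one_le_exp _
    have h5 : Real.exp (2 * C * lam) * Real.exp (-(2 * C * lam)) = 1 := by
      rw [← Real.exp_add]; simp
    have h6 : Real.exp (2 * C * lam) ≤ Real.exp (2 * C * l₀) := by
      apply Real.exp_le_exp.2; gcongr
    have h7 := Real.exp_pos (2 * C * lam)
    have h8 : Real.exp (2 * C * lam) ≤ 1 + 2 * C * lam * Real.exp (2 * C * lam) := by
      nlinarith
    have h9 : 2 * C * lam * Real.exp (2 * C * lam) ≤ 2 * C * lam * Real.exp (2 * C * l₀) := by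
      gcongr
    linarith
  have h4 : lam * (∫ ω, T ω u v ∂(PE q) - par q u v) ≤
      lam * (2 * C * Real.exp (2 * C * l₀)) := by
    calc lam * (∫ ω, T ω u v ∂(PE q) - par q u v) ≤ 2 * C * lam * Real.exp (2 * C * l₀) := by
          linarith
      _ = _ := by ring
  have h5 := le_of_mul_le_mul_left h4 hlam0
  linarith

theorem reach_vert (n : ℕ) : Reach (0, 0) (((2 * n : ℕ) : ℤ), 0) := by
  refine ⟨by simp, ?_⟩
  simp only [sub_zero, add_zero]
  exact ⟨n, by push_cast; ring⟩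

theorem par_vert (q : ℝ) (n : ℕ) : par q (0, 0) (((2 * n : ℕ) : ℤ), 0) = mu q * (2 * n) := by
  unfold par
  simp

theorem len_vert (n : ℕ) : len (0, 0) (((2 * n : ℕ) : ℤ), 0) = ((2 * n : ℕ) : ℝ) := by
  unfold len
  simp

theorem dsp_vert (n : ℕ) : dsp (0, 0) (((2 * n : ℕ) : ℤ), 0) = 0 := by
  unfold dsp
  simp

theorem rpow_ge (i : ℕ) : (i : ℝ) ≤ (i : ℝ) ^ ((3:ℝ)/2) := by
  rcases Nat.eq_zero_or_pos i with rfl | hi
  · simp
  · have : (1:ℝ) ≤ i := by exact_mod_cast hi
    calc (i : ℝ) = (i : ℝ) ^ (1:ℝ) := (Real.rpow_one _).symm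
      _ ≤ _ := Real.rpow_le_rpow_of_exponent_le this (by norm_num)

/-- Lower tail in the vertical direction in the form used here. -/
theorem low_tail (h_LT : D_LT) (q : ℝ) (hq : 0 < q) (hq1 : q < 1) :
    ∃ A c : ℝ, 0 < A ∧ 0 < c ∧ ∀ n : ℕ, 1 ≤ n → ∀ i : ℕ,
      PE q {ω | T ω (0, 0) (((2 * n : ℕ) : ℤ), 0) ≤
        mu q * (2 * n) - i * ((2 * n : ℕ) : ℝ) ^ ((1:ℝ)/3)} ≤
        ENNReal.ofReal (A * Real.exp (-(c * i))) := by
  obtain ⟨A, c, hA, hc, h⟩ := h_LT q hq hq1
  refine ⟨A, c, hA, hc, ?_⟩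
  intro n hn i
  have h1 := h (0, 0) (((2 * n : ℕ) : ℤ), 0) (reach_vert n) (by simp; omega) (by
    rw [dsp_vert, len_vert, abs_zero]; positivity) i (by positivity)
  rw [par_vert, len_vert] at h1
  refine h1.trans (ENNReal.ofReal_le_ofReal ?_)
  have := rpow_ge i
  gcongr

theorem pf_EXP (h_UTM : D_UTM) (h_LT : D_LT) : D_EXP := by
  intro q hq hq1
  obtain ⟨C1, hC1, hup⟩ := exp_upper h_UTM q hq hq1
  obtain ⟨A, c, hA, hc, hlow⟩ := low_tail h_LT q hq hq1
  set K : ℝ := ∑' i : ℕ, (2 * (i:ℝ) + 1) * (A * Real.exp (-(c * i))) with hK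
  have hK0 : 0 ≤ K := tsum_nonneg fun i => by positivity
  have hA1 : 0 ≤ A := hA.le
  -- we use the constant A' = max A 1 to cover i = 0
  refine ⟨max C1 ((1 + ∑' i : ℕ, (2 * (i:ℝ) + 1) * (max A 1 * Real.exp (-(c * i)))) / 2),
    lt_max_of_lt_left hC1, ?_, ?_⟩
  · intro u v hR huv
    refine ⟨memLp_T h_UTM q hq hq1 u v hR huv, (hup u v hR huv).trans ?_⟩
    have := le_max_left C1 ((1 + ∑' i : ℕ, (2 * (i:ℝ) + 1) *
      (max A 1 * Real.exp (-(c * i)))) / 2)
    linarith
  · intro n hn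
    set K' : ℝ := ∑' i : ℕ, (2 * (i:ℝ) + 1) * (max A 1 * Real.exp (-(c * i))) with hK'
    set X : Env → ℝ := fun ω => T ω (0, 0) (((2 * n : ℕ) : ℤ), 0) with hX
    set s : ℝ := ((2 * n : ℕ) : ℝ) ^ ((1:ℝ)/3) with hs
    have hN1 : (1:ℝ) ≤ ((2 * n : ℕ) : ℝ) := by
      have : 1 ≤ 2 * n := by omega
      exact_mod_cast this
    have hs1 : 1 ≤ s := by
      rw [hs]
      exact Real.one_le_rpow hN1 (by norm_num)
    have hs0 : 0 < s := by linarith
    have hXm : Measurable X := Pool.Agent.H22.LPP.measurable_T _ _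
    have hXL := memLp_T h_UTM q hq hq1 (0, 0) (((2 * n : ℕ) : ℤ), 0) (reach_vert n)
      (by simp; omega)
    have hXi : Integrable X (PE q) := hXL.integrable (by norm_num)
    set Y : Env → ℝ := fun ω => max (mu q * (2 * n) - X ω) 0 / s with hY
    have hYm : Measurable Y := by
      rw [hY]
      exact ((hXm.const_sub _).max measurable_const).div_const _
    have hY0 : ∀ ω, 0 ≤ Y ω := fun ω => div_nonneg (le_max_right _ _) hs0.le
    obtain ⟨hYi, hYb⟩ := second_moment' (PE q) Y hYm hY0 (max A 1) c (by positivity) hc (by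
      intro i
      rcases Nat.eq_zero_or_pos i with rfl | hi
      · refine prob_le_one.trans ?_
        rw [← ENNReal.ofReal_one]
        apply ENNReal.ofReal_le_ofReal
        simp
      · refine le_trans (measure_mono ?_) ((hlow n hn i).trans (ENNReal.ofReal_le_ofReal ?_))
        · intro ω hω
          simp only [Set.mem_ofPred_eq] at hω ⊢
          have hi0 : (0:ℝ) < i := by exact_mod_cast hi
          have h1 : (i:ℝ) * s ≤ max (mu q * (2 * n) - X ω) 0 := by
            have := (le_div_iff₀ hs0).1 hω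
            exact this
          have h2 : 0 < (i:ℝ) * s := by positivity
          rcases le_max_iff.1 h1 with h3 | h3
          · change X ω ≤ mu q * (2 * n) - i * s
            linarith
          · linarith
        · have := le_max_left A 1
          gcongr)
    have hlower : mu q * (2 * n) - ∫ ω, X ω ∂(PE q) ≤ (1 + K') / 2 * s := by
      have e1 : mu q * (2 * n) - ∫ ω, X ω ∂(PE q) = ∫ ω, (mu q * (2 * n) - X ω) ∂(PE q) := by
        rw [integral_sub (integrable_const _) hXi]; simp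
      rw [e1]
      have e2 : ∫ ω, (mu q * (2 * n) - X ω) ∂(PE q) ≤ ∫ ω, (s / 2 + s / 2 * Y ω ^ 2) ∂(PE q) := by
        refine integral_mono ((integrable_const _).sub hXi)
          ((integrable_const _).add (hYi.const_mul _)) fun ω => ?_
        simp only
        have h1 : mu q * (2 * n) - X ω ≤ s * Y ω := by
          rw [hY]
          simp only
          rw [mul_div_cancel₀ _ hs0.ne']
          exact le_max_left _ _
        nlinarith [sq_nonneg (Y ω - 1)]
      refine e2.trans ?_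
      rw [integral_add (integrable_const _) (hYi.const_mul _), integral_const_mul]
      simp only [integral_const, probReal_univ, smul_eq_mul, one_mul]
      nlinarith
    have hupper : ∫ ω, X ω ∂(PE q) - mu q * (2 * n) ≤ C1 * s := by
      have h1 := hup (0, 0) (((2 * n : ℕ) : ℤ), 0) (reach_vert n) (by simp; omega)
      rw [par_vert] at h1
      have h2 : C1 ≤ C1 * s := by nlinarith
      linarith
    rw [abs_le]
    have hm1 : C1 * s ≤ max C1 ((1 + K') / 2) * s := by
      gcongr; exact le_max_left _ _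
    have hm2 : (1 + K') / 2 * s ≤ max C1 ((1 + K') / 2) * s := by
      gcongr; exact le_max_right _ _
    constructor
    · linarith
    · linarith

end Pool.Agent.H65.GL
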