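import Pool.Agent.H84.GL.Basic

/-!
# Module RWK: maximal inequality for random walks
-/

open MeasureTheory ProbabilityTheory
open scoped ENNReal

namespace Pool.Agent.H65.GL

open Pool.Agent.H84.GL Pool.Agent.H99.NS

/-- The event of the maximal inequality. -/
def ev (g : ℕ → ℕ → ℝ) (k : ℕ) (y : ℝ) : Set ((ℕ → ℕ) × (ℕ → ℕ)) :=
  {x | ∃ i ≤ k, y ≤ ∑ m ∈ Finset.range i, g (x.1 m) (x.2 m)}

theorem measurableSet_ev {Ω : Type*} [MeasurableSpace Ω] (g : ℕ → ℕ → ℝ) (k : ℕ) (Y : Ω → ℝ)
    (F G : Ω → ℕ → ℕ) (hY : Measurable Y) (hF : Measurable F) (hG : Measurable G) :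
    MeasurableSet {ω | ∃ i ≤ k, Y ω ≤ ∑ m ∈ Finset.range i, g (F ω m) (G ω m)} := by
  have hg : Measurable (fun p : ℕ × ℕ => g p.1 p.2) := measurable_of_countable _
  have : {ω | ∃ i ≤ k, Y ω ≤ ∑ m ∈ Finset.range i, g (F ω m) (G ω m)} =
      ⋃ i ∈ Finset.range (k+1), {ω | Y ω ≤ ∑ m ∈ Finset.range i, g (F ω m) (G ω m)} := by
    ext ω
    simp only [Set.mem_ofPred_eq, Set.mem_iUnion, Finset.mem_range, Nat.lt_succ_iff,
      exists_prop]
  rw [this]
  refine Finset.measurableSet_biUnion _ fun i _ => ?_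
  refine measurableSet_le hY ?_
  refine Finset.measurable_sum _ fun m _ => ?_
  exact hg.comp (((measurable_pi_apply m).comp hF).prodMk ((measurable_pi_apply m).comp hG))

theorem step (h_SH1 : T_SH1) (a b : ℝ) (g : ℕ → ℕ → ℝ) (k : ℕ) (y : ℝ) (hy : 0 < y) :
    ((P1 a).prod (P1 b)) (ev g (k+1) y) =
      ∫⁻ u, ∫⁻ v, ((P1 a).prod (P1 b)) (ev g k (y - g u v)) ∂(geo b) ∂(geo a) := by
  set s : (ℕ → ℕ) → ℕ × (ℕ → ℕ) := fun x => (x 0, fun n => x (n+1)) with hs
  have hsm : Measurable s := by
    rw [hs]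
    refine (measurable_pi_apply 0).prodMk (measurable_pi_lambda _ fun n => measurable_pi_apply _)
  set B : Set ((ℕ × (ℕ → ℕ)) × (ℕ × (ℕ → ℕ))) :=
    {z | ∃ i ≤ k, y - g z.1.1 z.2.1 ≤ ∑ m ∈ Finset.range i, g (z.1.2 m) (z.2.2 m)} with hB
  have hg : Measurable (fun p : ℕ × ℕ => g p.1 p.2) := measurable_of_countable _
  have hBm : MeasurableSet B := by
    rw [hB]
    refine measurableSet_ev g k (fun z : (ℕ × (ℕ → ℕ)) × (ℕ × (ℕ → ℕ)) => y - g z.1.1 z.2.1)
      (fun z => z.1.2) (fun z => z.2.2) ?_ ?_ ?_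
    · exact measurable_const.sub (hg.comp ((measurable_fst.comp measurable_fst).prodMk
        (measurable_fst.comp measurable_snd)))
    · exact measurable_snd.comp measurable_fst
    · exact measurable_snd.comp measurable_snd
  have e1 : ev g (k+1) y = (Prod.map s s) ⁻¹' B := by
    ext x
    simp only [ev, Set.mem_ofPred_eq, hB, Set.mem_preimage, Prod.map, hs]
    constructor
    · rintro ⟨i, hi, h⟩
      rcases i with _ | i
      · simp only [Finset.range_zero, Finset.sum_empty] at h
        exact absurd h (not_le.2 hy)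
      · refine ⟨i, by omega, ?_⟩
        rw [Finset.sum_range_succ'] at h
        linarith
    · rintro ⟨i, hi, h⟩
      refine ⟨i+1, by omega, ?_⟩
      rw [Finset.sum_range_succ']
      linarith
  rw [e1, ← Measure.map_apply (hsm.prodMap hsm) hBm, ← Measure.map_prod_map _ _ hsm hsm,
    h_SH1 a, h_SH1 b, ← lintegral_indicator_one hBm]
  have hBi : Measurable (B.indicator (1 : (ℕ × (ℕ → ℕ)) × (ℕ × (ℕ → ℕ)) → ℝ≥0∞)) :=
    measurable_one.indicator hBm
  rw [lintegral_prod _ hBi.aemeasurable, lintegral_prod _ (hBi.lintegral_prod_right').aemeasurable]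
  refine lintegral_congr fun u => ?_
  have e2 : ∀ x : ℕ → ℕ, ∫⁻ z, B.indicator 1 ((u, x), z) ∂((geo b).prod (P1 b)) =
      ∫⁻ v, ∫⁻ x', B.indicator 1 ((u, x), (v, x')) ∂(P1 b) ∂(geo b) := by
    intro x
    rw [lintegral_prod]
    exact (hBi.comp (measurable_const.prodMk measurable_id)).aemeasurable
  simp only [e2]
  rw [lintegral_lintegral_swap]
  · refine lintegral_congr fun v => ?_
    have hm : MeasurableSet (ev g k (y - g u v)) :=
      measurableSet_ev g k (fun _ => y - g u v) Prod.fst Prod.snd measurable_const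
        measurable_fst measurable_snd
    rw [← lintegral_indicator_one hm, lintegral_prod _ (measurable_one.indicator hm).aemeasurable]
    refine lintegral_congr fun x => lintegral_congr fun x' => ?_
    simp only [Set.indicator, hB, ev, Set.mem_ofPred_eq, Pi.one_apply]
  · apply Measurable.aemeasurable
    have : Measurable (fun p : ((ℕ → ℕ) × ℕ) × (ℕ → ℕ) =>
        B.indicator (1 : (ℕ × (ℕ → ℕ)) × (ℕ × (ℕ → ℕ)) → ℝ≥0∞) ((u, p.1.1), (p.1.2, p.2))) := by
      apply hBi.comp
      fun_prop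
    exact this.lintegral_prod_right'

theorem pf_RWK (h_SH1 : T_SH1) : T_RWK := by
  intro a b g lam ρ hl hρ hm k
  have hρ0 : (0:ℝ) < ρ := by linarith
  have triv : ∀ (k : ℕ) (y : ℝ), y ≤ 0 → ((P1 a).prod (P1 b)) (ev g k y) ≤
      ENNReal.ofReal (Real.exp (-(lam * y)) * ρ ^ k) := by
    intro k y hy
    calc ((P1 a).prod (P1 b)) (ev g k y) ≤ 1 := prob_le_one
      _ = ENNReal.ofReal 1 := by simp
      _ ≤ _ := by
          apply ENNReal.ofReal_le_ofReal
          have h1 : 1 ≤ Real.exp (-(lam * y)) := by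
            apply Real.one_le_exp
            have := mul_nonpos_of_nonneg_of_nonpos hl hy
            linarith
          have h2 : 1 ≤ ρ ^ k := one_le_pow₀ hρ
          nlinarith
  induction k with
  | zero =>
    intro y
    change ((P1 a).prod (P1 b)) (ev g 0 y) ≤ _
    by_cases hy : y ≤ 0
    · exact triv 0 y hy
    · have : ev g 0 y = ∅ := by
        ext x
        simp only [ev, Set.mem_ofPred_eq, Set.mem_empty_iff_false, iff_false]
        rintro ⟨i, hi, h⟩
        have : i = 0 := by omega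
        subst this
        simp only [Finset.range_zero, Finset.sum_empty] at h
        exact hy h
      rw [this]; simp
  | succ k ih =>
    intro y
    change ((P1 a).prod (P1 b)) (ev g (k+1) y) ≤ _
    by_cases hy : y ≤ 0
    · exact triv (k+1) y hy
    · rw [step h_SH1 a b g k y (not_le.1 hy)]
      calc ∫⁻ u, ∫⁻ v, ((P1 a).prod (P1 b)) (ev g k (y - g u v)) ∂(geo b) ∂(geo a)
          ≤ ∫⁻ u, ∫⁻ v, ENNReal.ofReal (Real.exp (-(lam * (y - g u v))) * ρ ^ k)
              ∂(geo b) ∂(geo a) := by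
            refine lintegral_mono fun u => lintegral_mono fun v => ih (y - g u v)
        _ = ∫⁻ u, ∫⁻ v, ENNReal.ofReal (Real.exp (-(lam * y)) * ρ ^ k) * ex (lam * g u v)
              ∂(geo b) ∂(geo a) := by
            refine lintegral_congr fun u => lintegral_congr fun v => ?_
            unfold ex
            rw [← ENNReal.ofReal_mul (by positivity)]
            congr 1
            rw [show -(lam * (y - g u v)) = -(lam * y) + lam * g u v by ring, Real.exp_add]
            ring
        _ = ENNReal.ofReal (Real.exp (-(lam * y)) * ρ ^ k) *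
              ∫⁻ u, ∫⁻ v, ex (lam * g u v) ∂(geo b) ∂(geo a) := by
            rw [← lintegral_const_mul' _ _ ENNReal.ofReal_ne_top]
            refine lintegral_congr fun u => ?_
            rw [lintegral_const_mul' _ _ ENNReal.ofReal_ne_top]
        _ ≤ ENNReal.ofReal (Real.exp (-(lam * y)) * ρ ^ k) * ENNReal.ofReal ρ := by gcongr
        _ = ENNReal.ofReal (Real.exp (-(lam * y)) * ρ ^ (k+1)) := by
            rw [← ENNReal.ofReal_mul (by positivity)]
            congr 1
            ring

end Pool.Agent.H65.GL
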