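import Pool.Agent.H84.GL.Basic

/-!
# Module RWM: exponential maximum of the boundary sums in a window
-/

open MeasureTheory ProbabilityTheory
open scoped ENNReal

namespace Pool.Agent.H65.GL

open Pool.Agent.H84.GL Pool.Agent.H99.NS

/-- Windowed exponential maximum after `n` steps. -/
noncomputable def Fw (lam m : ℝ) (w n : ℕ) (x : ℕ → ℕ) : ℝ≥0∞ :=
  (Finset.Icc 1 w).sup (fun i => ex (lam * (((∑ l ∈ Finset.range (n + i), x l : ℕ) : ℝ) -
    m * ((n + i : ℕ) : ℝ))))

theorem measurable_sup_ennreal {Ω ι : Type*} [MeasurableSpace Ω] (s : Finset ι)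
    (f : ι → Ω → ℝ≥0∞) (h : ∀ k ∈ s, Measurable (f k)) :
    Measurable (fun ω => s.sup (fun k => f k ω)) := by
  classical
  induction s using Finset.induction_on with
  | empty => simp
  | insert i s _ ih =>
    simp only [Finset.sup_insert]
    exact (h i (Finset.mem_insert_self i s)).sup
      (ih fun k hk => h k (Finset.mem_insert_of_mem hk))

theorem measurable_Fw (lam m : ℝ) (w n : ℕ) : Measurable (Fw lam m w n) := by
  unfold Fw
  refine measurable_sup_ennreal _ (fun i (x : ℕ → ℕ) =>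
    ex (lam * (((∑ l ∈ Finset.range (n + i), x l : ℕ) : ℝ) - m * ((n + i : ℕ) : ℝ)))) fun i _ => ?_
  refine measurable_ex.comp (Measurable.const_mul (Measurable.sub_const ?_ _) _)
  exact (measurable_of_countable (fun k : ℕ => (k : ℝ))).comp (by fun_prop)

theorem Fw_succ (lam m : ℝ) (w n : ℕ) (x : ℕ → ℕ) :
    Fw lam m w (n+1) x ≤ ex (lam * ((x 0 : ℝ) - m)) * Fw lam m w n (fun l => x (l+1)) := by
  unfold Fw
  refine Finset.sup_le fun i hi => ?_
  have h1 : lam * (((∑ l ∈ Finset.range (n + 1 + i), x l : ℕ) : ℝ) - m * ((n + 1 + i : ℕ) : ℝ)) =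
      lam * ((x 0 : ℝ) - m) + lam * (((∑ l ∈ Finset.range (n + i), x (l+1) : ℕ) : ℝ) -
        m * ((n + i : ℕ) : ℝ)) := by
    rw [show n + 1 + i = (n + i) + 1 by ring, Finset.sum_range_succ']
    push_cast
    ring
  rw [h1, ex_add]
  gcongr
  exact Finset.le_sup (f := fun i => ex (lam * (((∑ l ∈ Finset.range (n + i), x (l+1) : ℕ) : ℝ) -
    m * ((n + i : ℕ) : ℝ)))) hi

theorem Fw_iter (h_SH1 : T_SH1) (al lam m : ℝ) (w n : ℕ) (g : ℝ≥0∞)
    (hg : ∫⁻ u, ex (lam * ((u : ℝ) - m)) ∂(geo al) ≤ g) :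
    ∫⁻ x, Fw lam m w n x ∂(P1 al) ≤ g ^ n * ∫⁻ x, Fw lam m w 0 x ∂(P1 al) := by
  induction n with
  | zero => simp
  | succ n ih =>
    have hs : Measurable (fun x : ℕ → ℕ => (x 0, fun n => x (n+1))) :=
      (measurable_pi_apply 0).prodMk (measurable_pi_lambda _ fun n => measurable_pi_apply _)
    have hm : Measurable (fun p : ℕ × (ℕ → ℕ) =>
        ex (lam * ((p.1 : ℝ) - m)) * Fw lam m w n p.2) := by
      refine Measurable.mul ?_ ((measurable_Fw lam m w n).comp measurable_snd)
      exact (measurable_of_countable (fun k : ℕ => ex (lam * ((k : ℝ) - m)))).comp measurable_fst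
    calc ∫⁻ x, Fw lam m w (n+1) x ∂(P1 al)
        ≤ ∫⁻ x, ex (lam * ((x 0 : ℝ) - m)) * Fw lam m w n (fun l => x (l+1)) ∂(P1 al) :=
          lintegral_mono fun x => Fw_succ lam m w n x
      _ = ∫⁻ p, ex (lam * ((p.1 : ℝ) - m)) * Fw lam m w n p.2
            ∂(Measure.map (fun x : ℕ → ℕ => (x 0, fun n => x (n+1))) (P1 al)) := by
          rw [lintegral_map hm hs]
      _ = (∫⁻ u, ex (lam * ((u : ℝ) - m)) ∂(geo al)) * ∫⁻ x, Fw lam m w n x ∂(P1 al) := by
          rw [h_SH1 al]
          exact lintegral_prod_mul (f := fun u : ℕ => ex (lam * ((u : ℝ) - m)))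
            (g := Fw lam m w n) (measurable_of_countable _).aemeasurable
            (measurable_Fw lam m w n).aemeasurable
      _ ≤ g * (g ^ n * ∫⁻ x, Fw lam m w 0 x ∂(P1 al)) := mul_le_mul' hg ih
      _ = g ^ (n+1) * ∫⁻ x, Fw lam m w 0 x ∂(P1 al) := by rw [pow_succ']; ring

theorem Fw_zero (h_RWK : T_RWK) (al lam m ρ : ℝ) (hl : 0 < lam) (hρ : 1 ≤ ρ) (w : ℕ)
    (hg : ∫⁻ u, ex (2 * lam * ((u : ℝ) - m)) ∂(geo al) ≤ ENNReal.ofReal ρ) :
    ∫⁻ x, Fw lam m w 0 x ∂(P1 al) ≤ 6 * ENNReal.ofReal (ρ ^ w) := by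
  set A : ℕ → Set (ℕ → ℕ) := fun n =>
    {x | ∃ i ≤ w, (n : ℝ) / lam ≤ ∑ l ∈ Finset.range i, ((x l : ℝ) - m)} with hA
  have hAm : ∀ n, MeasurableSet (A n) := by
    intro n
    have : A n = ⋃ i ∈ Finset.range (w+1),
        {x : ℕ → ℕ | (n : ℝ) / lam ≤ ∑ l ∈ Finset.range i, ((x l : ℝ) - m)} := by
      ext x
      simp only [hA, Set.mem_ofPred_eq, Set.mem_iUnion, Finset.mem_range, Nat.lt_succ_iff,
        exists_prop]
    rw [this]
    refine Finset.measurableSet_biUnion _ fun i _ => ?_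
    refine measurableSet_le measurable_const ?_
    refine Finset.measurable_sum _ fun l _ => ?_
    exact ((measurable_of_countable (fun k : ℕ => (k : ℝ))).comp
      (measurable_pi_apply l)).sub_const _
  have hP : ∀ n : ℕ, P1 al (A n) ≤ ENNReal.ofReal (Real.exp (-(2 * n)) * ρ ^ w) := by
    intro n
    have h := h_RWK al 0 (fun x _ => (x : ℝ) - m) (2 * lam) ρ (by linarith) hρ (by
      simpa using hg) w (n / lam)
    have e1 : -(2 * lam * ((n : ℝ) / lam)) = -(2 * n) := by field_simp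
    rw [e1] at h
    refine le_trans (le_of_eq ?_) h
    have h2 : P1 al (A n) = Measure.map Prod.fst ((P1 al).prod (P1 0)) (A n) := by
      rw [Measure.map_fst_prod]; simp
    rw [h2, Measure.map_apply measurable_fst (hAm n)]
    rfl
  have hpt : ∀ x, Fw lam m w 0 x ≤ 1 + ∑' n : ℕ,
      ENNReal.ofReal (Real.exp (n + 1)) * (A n).indicator (fun _ => (1:ℝ≥0∞)) x := by
    intro x
    unfold Fw
    refine Finset.sup_le fun i hi => ?_
    have hiw := (Finset.mem_Icc.1 hi).2
    rw [zero_add]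
    set t : ℝ := lam * (((∑ l ∈ Finset.range i, x l : ℕ) : ℝ) - m * (i : ℝ)) with ht
    have ht' : t = lam * ∑ l ∈ Finset.range i, ((x l : ℝ) - m) := by
      rw [ht, Finset.sum_sub_distrib]
      push_cast
      simp only [Finset.sum_const, Finset.card_range, nsmul_eq_mul]
      ring
    by_cases h0 : t ≤ 0
    · calc ex t ≤ ex 0 := ex_mono h0
        _ = 1 := ex_zero
        _ ≤ _ := le_self_add
    · push Not at h0
      set n : ℕ := ⌊t⌋₊ with hn
      have hn1 : (n : ℝ) ≤ t := Nat.floor_le h0.le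
      have hn2 : t ≤ n + 1 := (Nat.lt_floor_add_one t).le
      have hx : x ∈ A n := by
        refine ⟨i, hiw, ?_⟩
        rw [div_le_iff₀ hl, mul_comm]
        rw [← ht']; exact hn1
      calc ex t ≤ ENNReal.ofReal (Real.exp (n + 1)) :=
            ENNReal.ofReal_le_ofReal (Real.exp_le_exp.2 hn2)
        _ = ENNReal.ofReal (Real.exp (n + 1)) * (A n).indicator (fun _ => (1:ℝ≥0∞)) x := by
            rw [Set.indicator_of_mem hx, mul_one]
        _ ≤ ∑' n : ℕ, ENNReal.ofReal (Real.exp (n + 1)) *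
              (A n).indicator (fun _ => (1:ℝ≥0∞)) x :=
            ENNReal.le_tsum (f := fun n : ℕ => ENNReal.ofReal (Real.exp (n + 1)) *
              (A n).indicator (fun _ => (1:ℝ≥0∞)) x) n
        _ ≤ _ := le_add_self
  have hρw : 1 ≤ ρ ^ w := one_le_pow₀ hρ
  have hE1 := Real.exp_one_gt_d9
  have hE2 := Real.exp_one_lt_d9
  have hE3 : Real.exp (-1) = (Real.exp 1)⁻¹ := Real.exp_neg 1
  have hElt : Real.exp (-1) < 1 := by
    rw [hE3]; exact inv_lt_one_of_one_lt₀ (by linarith)
  calc ∫⁻ x, Fw lam m w 0 x ∂(P1 al)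
      ≤ ∫⁻ x, (1 + ∑' n : ℕ, ENNReal.ofReal (Real.exp (n + 1)) *
          (A n).indicator (fun _ => (1:ℝ≥0∞)) x) ∂(P1 al) := lintegral_mono hpt
    _ = 1 + ∑' n : ℕ, ENNReal.ofReal (Real.exp (n + 1)) * P1 al (A n) := by
        rw [lintegral_add_left measurable_const, lintegral_tsum]
        · congr 1
          · simp
          · refine tsum_congr fun n => ?_
            rw [lintegral_const_mul' _ _ ENNReal.ofReal_ne_top]
            congr 1
            rw [lintegral_indicator_const (hAm n), one_mul]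
        · intro n
          exact (measurable_const.mul (measurable_const.indicator (hAm n))).aemeasurable
    _ ≤ 1 + ∑' n : ℕ, ENNReal.ofReal ((Real.exp 1 * ρ ^ w) * Real.exp (-1) ^ n) := by
        gcongr with n
        calc ENNReal.ofReal (Real.exp (n + 1)) * P1 al (A n)
            ≤ ENNReal.ofReal (Real.exp (n + 1)) *
                ENNReal.ofReal (Real.exp (-(2 * n)) * ρ ^ w) := by gcongr; exact hP n
          _ = ENNReal.ofReal ((Real.exp 1 * ρ ^ w) * Real.exp (-1) ^ n) := by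
              rw [← ENNReal.ofReal_mul (Real.exp_pos _).le]
              congr 1
              rw [← mul_assoc, ← Real.exp_add, ← Real.exp_nat_mul, mul_right_comm,
                ← Real.exp_add]
              congr 2
              ring
    _ = 1 + ENNReal.ofReal ((Real.exp 1 * ρ ^ w) * (1 - Real.exp (-1))⁻¹) := by
        rw [← ENNReal.ofReal_tsum_of_nonneg]
        · rw [tsum_mul_left, tsum_geometric_of_lt_one (Real.exp_pos _).le hElt]
        · intro n; positivity
        · exact (summable_geometric_of_lt_one (Real.exp_pos _).le hElt).mul_left _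
    _ ≤ 1 + ENNReal.ofReal (5 * ρ ^ w) := by
        refine add_le_add le_rfl (ENNReal.ofReal_le_ofReal ?_)
        have h1 : Real.exp 1 * (1 - Real.exp (-1))⁻¹ ≤ 5 := by
          rw [hE3]
          have h2 : 0 < 1 - (Real.exp 1)⁻¹ := by rw [← hE3]; linarith
          rw [mul_inv_le_iff₀ h2]
          have h3 : 5 * (1 - (Real.exp 1)⁻¹) - Real.exp 1 =
              (5 * Real.exp 1 - 5 - Real.exp 1 * Real.exp 1) / Real.exp 1 := by
            field_simp
          have h4 : 0 ≤ (5 * Real.exp 1 - 5 - Real.exp 1 * Real.exp 1) / Real.exp 1 := by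
            apply div_nonneg _ (Real.exp_pos 1).le
            nlinarith
          linarith
        calc Real.exp 1 * ρ ^ w * (1 - Real.exp (-1))⁻¹
            = (Real.exp 1 * (1 - Real.exp (-1))⁻¹) * ρ ^ w := by ring
          _ ≤ 5 * ρ ^ w := by gcongr
    _ ≤ ENNReal.ofReal (ρ ^ w) + ENNReal.ofReal (5 * ρ ^ w) := by
        gcongr
        rw [← ENNReal.ofReal_one]
        exact ENNReal.ofReal_le_ofReal hρw
    _ = 6 * ENNReal.ofReal (ρ ^ w) := by
        rw [← ENNReal.ofReal_add (by positivity) (by positivity)]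
        rw [show (6 : ℝ≥0∞) = ENNReal.ofReal 6 by simp, ← ENNReal.ofReal_mul (by norm_num)]
        congr 1; ring

theorem ES_eq (q al lam : ℝ) (w j : ℕ) :
    ES q al lam w j ≤ ∫⁻ x, Fw lam (mu q) w (j * w) x ∂(P1 al) := by
  unfold ES
  refine lintegral_mono fun x => ?_
  refine Finset.sup_le fun k hk => ?_
  obtain ⟨h1, h2⟩ := Finset.mem_Ico.1 hk
  rw [add_mul, one_mul] at h2
  have hi : k + 1 - j * w ∈ Finset.Icc 1 w := Finset.mem_Icc.2 ⟨by omega, by omega⟩
  have h := Finset.le_sup (f := fun i => ex (lam * (((∑ l ∈ Finset.range (j * w + i), x l : ℕ) : ℝ) -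
    mu q * ((j * w + i : ℕ) : ℝ)))) hi
  rw [show j * w + (k + 1 - j * w) = k + 1 by omega] at h
  unfold Fw
  refine le_trans (le_of_eq ?_) h
  push_cast
  rfl

/-- Exponential moments of one step. -/
theorem step_bounds (h_GEM : T_GEM) (h_PSI : T_PSI) (q : ℝ) (hq : 0 < q) (hq1 : q < 1) :
    ∃ C l₀ : ℝ, 0 < C ∧ 0 < l₀ ∧ ∀ lam : ℝ, 0 < lam → lam ≤ l₀ →
      ∫⁻ u, ex (lam * ((u : ℝ) - mu q)) ∂(geo (√q * Real.exp (-(lam / 2)))) ≤
        ex (C * lam ^ 3) ∧
      ∫⁻ u, ex (2 * lam * ((u : ℝ) - mu q)) ∂(geo (√q * Real.exp (-(lam / 2)))) ≤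
        ex (C * lam ^ 2) := by
  set r : ℝ := √q with hr
  have hr0 : 0 < r := Real.sqrt_pos.2 hq
  have hr1 : r < 1 := by
    rw [hr, Real.sqrt_lt' one_pos]; simpa using hq1
  obtain ⟨C, l₁, hC, hl₁, hpsi⟩ := h_PSI r hr0 hr1
  set b : ℝ := (1 + r) / (2 * r) with hb
  have hb1 : 1 < b := by rw [hb, lt_div_iff₀ (by linarith)]; linarith
  have hlb : 0 < Real.log b := Real.log_pos hb1
  set l₂ : ℝ := 2 / 3 * Real.log b with hl₂
  have hm : mu q = r / (1 - r) := rfl
  set C2 : ℝ := 6 / (1 - r) ^ 2 with hC2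
  have hC2p : 0 < C2 := by
    rw [hC2]
    have : 0 < 1 - r := by linarith
    positivity
  refine ⟨max C C2, min l₁ l₂, lt_max_of_lt_left hC, lt_min hl₁ (by positivity), ?_⟩
  intro lam hlam hle
  have hle1 : lam ≤ l₁ := le_trans hle (min_le_left _ _)
  have hle2 : lam ≤ l₂ := le_trans hle (min_le_right _ _)
  obtain ⟨hp1, hp2⟩ := hpsi r lam hr0 le_rfl hlam.le hle1
  have hal0 : 0 < r * Real.exp (-(lam / 2)) := by positivity
  have hneg : Real.exp (-(lam / 2)) < 1 := by
    rw [Real.exp_lt_one_iff]; linarith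
  have hal1 : r * Real.exp (-(lam / 2)) < 1 := by nlinarith [Real.exp_pos (-(lam / 2))]
  have hgen : ∀ t : ℝ, r * Real.exp (t - lam / 2) < 1 →
      ∫⁻ u : ℕ, ex (t * ((u : ℝ) - mu q)) ∂(geo (r * Real.exp (-(lam / 2)))) =
        ENNReal.ofReal (Real.exp (-(t * mu q)) *
          ((1 - r * Real.exp (-(lam / 2))) / (1 - r * Real.exp (t - lam / 2)))) := by
    intro t ht
    have e0 : Real.exp t * (r * Real.exp (-(lam / 2))) = r * Real.exp (t - lam / 2) := by
      rw [sub_eq_add_neg, Real.exp_add]; ring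
    have h := h_GEM (r * Real.exp (-(lam / 2))) (Real.exp t) hal0.le hal1 (Real.exp_pos t).le
      (by rw [e0]; exact ht)
    rw [e0] at h
    rw [ENNReal.ofReal_mul (Real.exp_pos _).le, ← h, ← lintegral_const_mul' _ _
      ENNReal.ofReal_ne_top]
    refine lintegral_congr fun u => ?_
    unfold ex
    rw [← ENNReal.ofReal_mul (Real.exp_pos _).le, ← Real.exp_nat_mul, ← Real.exp_add]
    congr 2
    ring
  constructor
  · have hh : r * Real.exp (lam - lam / 2) < 1 := by
      rw [show lam - lam / 2 = lam / 2 by ring]; exact hp1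
    rw [hgen lam hh, show lam - lam / 2 = lam / 2 by ring]
    unfold ex
    apply ENNReal.ofReal_le_ofReal
    have hpos : 0 < (1 - r * Real.exp (-(lam / 2))) / (1 - r * Real.exp (lam / 2)) :=
      div_pos (by linarith) (by linarith)
    have h1 : (1 - r * Real.exp (-(lam / 2))) / (1 - r * Real.exp (lam / 2)) ≤
        Real.exp (lam * (r / (1 - r)) + C * lam ^ 3) := by
      rw [← Real.log_le_iff_le_exp hpos]; exact hp2
    calc Real.exp (-(lam * mu q)) *
          ((1 - r * Real.exp (-(lam / 2))) / (1 - r * Real.exp (lam / 2)))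
        ≤ Real.exp (-(lam * mu q)) * Real.exp (lam * (r / (1 - r)) + C * lam ^ 3) := by gcongr
      _ = Real.exp (C * lam ^ 3) := by rw [← Real.exp_add, hm]; congr 1; ring
      _ ≤ Real.exp (max C C2 * lam ^ 3) := by
          apply Real.exp_le_exp.2
          have : 0 ≤ lam ^ 3 := by positivity
          exact mul_le_mul_of_nonneg_right (le_max_left _ _) this
  · have h32 : r * Real.exp (3 / 2 * lam) ≤ (1 + r) / 2 := by
      have h1 : 3 / 2 * lam ≤ Real.log b := by
        rw [hl₂] at hle2; linarith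
      have h2 : Real.exp (3 / 2 * lam) ≤ b := by
        rw [← Real.exp_log (show 0 < b by linarith)]
        exact Real.exp_le_exp.2 h1
      calc r * Real.exp (3 / 2 * lam) ≤ r * b := by gcongr
        _ = (1 + r) / 2 := by rw [hb]; field_simp
    have hh : r * Real.exp (2 * lam - lam / 2) < 1 := by
      rw [show 2 * lam - lam / 2 = 3 / 2 * lam by ring]; linarith
    rw [hgen (2 * lam) hh, show 2 * lam - lam / 2 = 3 / 2 * lam by ring]
    unfold ex
    apply ENNReal.ofReal_le_ofReal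
    set et : ℝ := Real.exp (3 / 2 * lam) with het
    set es : ℝ := Real.exp (-(lam / 2)) with hes
    have het0 : 0 < et := Real.exp_pos _
    have hden : (1 - r) / 2 ≤ 1 - r * et := by linarith
    have hden0 : 0 < 1 - r * et := by linarith
    have h1r : 0 < 1 - r := by linarith
    -- e^t - e^s ≤ (t - s) e^t
    have hts : et - es ≤ 2 * lam * et := by
      have h1 : es = et * Real.exp (-(2 * lam)) := by
        rw [hes, het, ← Real.exp_add]; congr 1; ring
      have h2 : -(2 * lam) + 1 ≤ Real.exp (-(2 * lam)) := Real.add_one_le_exp _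
      rw [h1]
      nlinarith
    have ht1 : et - 1 ≤ 3 / 2 * lam * et := by
      have h1 : (1:ℝ) = et * Real.exp (-(3 / 2 * lam)) := by
        rw [het, ← Real.exp_add]; simp
      have h2 : -(3 / 2 * lam) + 1 ≤ Real.exp (-(3 / 2 * lam)) := Real.add_one_le_exp _
      nlinarith
    have hret : r * et ≤ 1 := by linarith
    have hkey : r * et / (1 - r * et) ≤ r / (1 - r) + 3 * lam / (1 - r) ^ 2 := by
      have h1 : r * et / (1 - r * et) - r / (1 - r) =
          r * (et - 1) / ((1 - r * et) * (1 - r)) := by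
        field_simp
        ring
      have h2 : r * (et - 1) ≤ 3 / 2 * lam := by
        calc r * (et - 1) ≤ r * (3 / 2 * lam * et) := by gcongr
          _ = 3 / 2 * lam * (r * et) := by ring
          _ ≤ 3 / 2 * lam * 1 := by gcongr
          _ = 3 / 2 * lam := mul_one _
      have h3 : r * (et - 1) / ((1 - r * et) * (1 - r)) ≤
          (3 / 2 * lam) / ((1 - r) / 2 * (1 - r)) := by
        gcongr
      have h4 : (3 / 2 * lam) / ((1 - r) / 2 * (1 - r)) = 3 * lam / (1 - r) ^ 2 := by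
        field_simp
      linarith
    have hmain : (1 - r * es) / (1 - r * et) ≤
        Real.exp (2 * lam * (r / (1 - r)) + C2 * lam ^ 2) := by
      have h1 : (1 - r * es) / (1 - r * et) = r * (et - es) / (1 - r * et) + 1 := by
        field_simp
        ring
      have h2 : r * (et - es) / (1 - r * et) ≤ 2 * lam * (r * et / (1 - r * et)) := by
        rw [← mul_div_assoc]
        refine div_le_div_of_nonneg_right ?_ hden0.le
        calc r * (et - es) ≤ r * (2 * lam * et) := by gcongr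
          _ = 2 * lam * (r * et) := by ring
      have h3 : 2 * lam * (r * et / (1 - r * et)) ≤
          2 * lam * (r / (1 - r) + 3 * lam / (1 - r) ^ 2) := by gcongr
      have h4 : 2 * lam * (r / (1 - r) + 3 * lam / (1 - r) ^ 2) =
          2 * lam * (r / (1 - r)) + C2 * lam ^ 2 := by
        rw [hC2]; ring
      rw [h1]
      calc r * (et - es) / (1 - r * et) + 1
          ≤ (2 * lam * (r / (1 - r)) + C2 * lam ^ 2) + 1 := by linarith
        _ ≤ Real.exp (2 * lam * (r / (1 - r)) + C2 * lam ^ 2) := Real.add_one_le_exp _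
    calc Real.exp (-(2 * lam * mu q)) * ((1 - r * es) / (1 - r * et))
        ≤ Real.exp (-(2 * lam * mu q)) *
            Real.exp (2 * lam * (r / (1 - r)) + C2 * lam ^ 2) := by gcongr
      _ = Real.exp (C2 * lam ^ 2) := by rw [← Real.exp_add, hm]; congr 1; ring
      _ ≤ Real.exp (max C C2 * lam ^ 2) := by
          apply Real.exp_le_exp.2
          have : 0 ≤ lam ^ 2 := by positivity
          exact mul_le_mul_of_nonneg_right (le_max_right _ _) this

theorem ex_pow (x : ℝ) (n : ℕ) : ex x ^ n = ex (n * x) := by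
  unfold ex
  rw [← ENNReal.ofReal_pow (Real.exp_pos x).le, ← Real.exp_nat_mul]

theorem pf_RWM (h_GEM : T_GEM) (h_SH1 : T_SH1) (h_RWK : T_RWK) (h_PSI : T_PSI) : T_RWM := by
  intro q hq hq1
  obtain ⟨C, l₀, hC, hl₀, hst⟩ := step_bounds h_GEM h_PSI q hq hq1
  refine ⟨C, l₀, hC, hl₀, ?_⟩
  intro lam hlam hle w j _
  obtain ⟨h1, h2⟩ := hst lam hlam hle
  set al : ℝ := √q * Real.exp (-(lam / 2)) with hal
  have hρ : 1 ≤ Real.exp (C * lam ^ 2) := Real.one_le_exp (by positivity)
  have h3 := Fw_iter h_SH1 al lam (mu q) w (j * w) (ex (C * lam ^ 3)) h1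
  have h4 := Fw_zero h_RWK al lam (mu q) (Real.exp (C * lam ^ 2)) hlam hρ w h2
  calc ES q al lam w j ≤ ∫⁻ x, Fw lam (mu q) w (j * w) x ∂(P1 al) := ES_eq q al lam w j
    _ ≤ ex (C * lam ^ 3) ^ (j * w) * ∫⁻ x, Fw lam (mu q) w 0 x ∂(P1 al) := h3
    _ ≤ ex (C * lam ^ 3) ^ (j * w) * (6 * ENNReal.ofReal (Real.exp (C * lam ^ 2) ^ w)) := by
        gcongr
    _ = 6 * ex (C * lam ^ 2 * w + C * lam ^ 3 * (j * w)) := by
        rw [ENNReal.ofReal_pow (Real.exp_pos _).le]
        change ex (C * lam ^ 3) ^ (j * w) * (6 * ex (C * lam ^ 2) ^ w) = _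
        rw [ex_pow, ex_pow, ex_add, mul_left_comm, mul_comm (ex _) (ex _)]
        congr 2
        · congr 1; ring
        · congr 1; push_cast; ring

end Pool.Agent.H65.GL
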