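import Pool.Agent.H65.GL.EXP

/-!
# Module VAR: variance bounds in the vertical direction
-/

open MeasureTheory ProbabilityTheory
open scoped ENNReal

namespace Pool.Agent.H65.GL

open Pool.Agent.H84.GL Pool.Agent.H99.NS

/-- Upper tail in the vertical direction in the form used here. -/
theorem up_tail (h_UT : D_UT) (q : ℝ) (hq : 0 < q) (hq1 : q < 1) :
    ∃ A c : ℝ, 0 < A ∧ 0 < c ∧ ∀ n : ℕ, 1 ≤ n → ∀ i : ℕ,
      PE q {ω | mu q * (2 * n) + i * ((2 * n : ℕ) : ℝ) ^ ((1:ℝ)/3) ≤
        T ω (0, 0) (((2 * n : ℕ) : ℤ), 0)} ≤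
        ENNReal.ofReal (A * Real.exp (-(c * i))) := by
  obtain ⟨A, c, hA, hc, h⟩ := h_UT q hq hq1
  refine ⟨A, c, hA, hc, ?_⟩
  intro n hn i
  have h1 := h (0, 0) (((2 * n : ℕ) : ℤ), 0) (reach_vert n) (by simp; omega) i (by positivity)
  rw [par_vert, len_vert] at h1
  refine h1.trans (ENNReal.ofReal_le_ofReal ?_)
  have h2 := rpow_ge i
  have hN1 : (1:ℝ) ≤ ((2 * n : ℕ) : ℝ) := by
    have : 1 ≤ 2 * n := by omega
    exact_mod_cast this
  have hs1 : 1 ≤ ((2 * n : ℕ) : ℝ) ^ ((1:ℝ)/3) := Real.one_le_rpow hN1 (by norm_num)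
  have h3 : (i:ℝ) ≤ i * ((2 * n : ℕ) : ℝ) ^ ((1:ℝ)/3) := by
    have : (0:ℝ) ≤ i := by positivity
    nlinarith
  have h4 : (i:ℝ) ≤ min ((i:ℝ) ^ ((3:ℝ)/2)) (i * ((2 * n : ℕ) : ℝ) ^ ((1:ℝ)/3)) := le_min h2 h3
  gcongr

theorem pf_VAR (h_BASE : D_BASE) (h_EXP : D_EXP) (h_UT : D_UT) (h_LT : D_LT) : D_VAR := by
  intro q hq hq1
  obtain ⟨c0, p, hc0, hp, n0, hbase⟩ := h_BASE q hq hq1
  obtain ⟨C1, hC1, hexp, -⟩ := h_EXP q hq hq1
  obtain ⟨A, c, hA, hc, hlow⟩ := low_tail h_LT q hq hq1
  obtain ⟨A', c', hA', hc', hup⟩ := up_tail h_UT q hq hq1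
  set B : ℝ := max (A + A') 1 with hB
  have hB0 : 0 < B := lt_max_of_lt_right one_pos
  set d : ℝ := min c c' with hd
  have hd0 : 0 < d := lt_min hc hc'
  set K : ℝ := ∑' i : ℕ, (2 * (i:ℝ) + 1) * (B * Real.exp (-(d * i))) with hK
  have hK0 : 0 ≤ K := tsum_nonneg fun i => by positivity
  set M : ℝ := 2 * C1 / c0 with hM
  refine ⟨p * (c0 / 2) ^ 2, K + 1, by positivity, by linarith, max (max n0 1) ⌈M ^ 3⌉₊, ?_⟩
  intro n hn
  have hn0 : n0 ≤ n := le_trans (le_trans (le_max_left _ _) (le_max_left _ _)) hn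
  have hn1 : 1 ≤ n := le_trans (le_trans (le_max_right _ _) (le_max_left _ _)) hn
  have hnM : M ^ 3 ≤ n := (Nat.le_ceil _).trans (by exact_mod_cast le_trans (le_max_right _ _) hn)
  set X : Env → ℝ := fun ω => T ω (0, 0) (((2 * n : ℕ) : ℤ), 0) with hX
  set s : ℝ := ((2 * n : ℕ) : ℝ) ^ ((1:ℝ)/3) with hs
  have hN1 : (1:ℝ) ≤ ((2 * n : ℕ) : ℝ) := by
    have : 1 ≤ 2 * n := by omega
    exact_mod_cast this
  have hs1 : 1 ≤ s := Real.one_le_rpow hN1 (by norm_num)
  have hs0 : 0 < s := by linarith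
  have hs2 : ((2 * n : ℕ) : ℝ) ^ ((2:ℝ)/3) = s ^ 2 := by
    rw [hs, ← Real.rpow_natCast, ← Real.rpow_mul (by positivity)]
    norm_num
  have hM0 : 0 < M := by positivity
  have hsM : M ≤ s := by
    have h1 : (M ^ 3) ^ ((1:ℝ)/3) ≤ s := by
      apply Real.rpow_le_rpow (by positivity) _ (by norm_num)
      push_cast
      have : (0:ℝ) ≤ n := by positivity
      linarith
    have h2 : (M ^ 3) ^ ((1:ℝ)/3) = M := by
      rw [← Real.rpow_natCast, ← Real.rpow_mul hM0.le]
      norm_num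
    rwa [h2] at h1
  have hXm : Measurable X := Pool.Agent.H22.LPP.measurable_T _ _
  obtain ⟨hXL, hXE⟩ := hexp (0, 0) (((2 * n : ℕ) : ℤ), 0) (reach_vert n) (by simp; omega)
  rw [par_vert] at hXE
  rw [hs2]
  constructor
  · -- lower bound
    have ht0 : 0 < c0 / 2 * s := by positivity
    have h1 := meas_ge_le_variance_div_sq hXL ht0
    have h2 : ENNReal.ofReal p ≤ ENNReal.ofReal (variance X (PE q) / (c0 / 2 * s) ^ 2) := by
      refine (hbase n hn0).trans (le_trans (measure_mono ?_) h1)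
      intro ω hω
      simp only [Set.mem_ofPred_eq] at hω ⊢
      have h3 : C1 ≤ c0 / 2 * s := by
        have : M * (c0 / 2) ≤ s * (c0 / 2) := by gcongr
        have e : M * (c0 / 2) = C1 := by rw [hM]; field_simp
        linarith
      refine le_trans ?_ (le_abs_self _)
      have e4 : mu q * (2 * n) + c0 * s ≤ X ω := hω
      have e5 : ∫ ω, X ω ∂(PE q) ≤ mu q * (2 * n) + C1 := hXE
      change c0 / 2 * s ≤ X ω - ∫ ω, X ω ∂(PE q)
      linarith
    have hv : 0 ≤ variance X (PE q) / (c0 / 2 * s) ^ 2 := div_nonneg (variance_nonneg _ _) (by positivity)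
    have h4 := (ENNReal.ofReal_le_ofReal_iff hv).1 h2
    rw [le_div_iff₀ (by positivity)] at h4
    calc p * (c0 / 2) ^ 2 * s ^ 2 = p * (c0 / 2 * s) ^ 2 := by ring
      _ ≤ _ := h4
  · -- upper bound
    set Y : Env → ℝ := fun ω => |X ω - mu q * (2 * n)| / s with hY
    have hYm : Measurable Y := by
      rw [hY]
      exact (continuous_abs.measurable.comp (hXm.sub_const _)).div_const _
    have hY0 : ∀ ω, 0 ≤ Y ω := fun ω => div_nonneg (abs_nonneg _) hs0.le
    obtain ⟨hYi, hYb⟩ := second_moment' (PE q) Y hYm hY0 B d hB0.le hd0 (by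
      intro i
      rcases Nat.eq_zero_or_pos i with rfl | hi
      · refine prob_le_one.trans ?_
        rw [← ENNReal.ofReal_one]
        apply ENNReal.ofReal_le_ofReal
        simp [hB]
      · have hsub : {ω | (i:ℝ) ≤ Y ω} ⊆
            {ω | T ω (0, 0) (((2 * n : ℕ) : ℤ), 0) ≤ mu q * (2 * n) - i * s} ∪
            {ω | mu q * (2 * n) + i * s ≤ T ω (0, 0) (((2 * n : ℕ) : ℤ), 0)} := by
          intro ω hω
          simp only [Set.mem_ofPred_eq, Set.mem_union] at hω ⊢
          have h1 : (i:ℝ) * s ≤ |X ω - mu q * (2 * n)| := (le_div_iff₀ hs0).1 hω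
          rcases le_abs.1 h1 with h2 | h2
          · right
            change mu q * (2 * n) + i * s ≤ X ω
            linarith
          · left
            change X ω ≤ mu q * (2 * n) - i * s
            linarith
        refine (measure_mono hsub).trans ((measure_union_le _ _).trans ?_)
        refine (add_le_add (hlow n hn1 i) (hup n hn1 i)).trans ?_
        rw [← ENNReal.ofReal_add (by positivity) (by positivity)]
        apply ENNReal.ofReal_le_ofReal
        have e1 : Real.exp (-(c * i)) ≤ Real.exp (-(d * i)) := by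
          apply Real.exp_le_exp.2
          have : d * i ≤ c * i := by gcongr; exact min_le_left _ _
          linarith
        have e2 : Real.exp (-(c' * i)) ≤ Real.exp (-(d * i)) := by
          apply Real.exp_le_exp.2
          have : d * i ≤ c' * i := by gcongr; exact min_le_right _ _
          linarith
        calc A * Real.exp (-(c * i)) + A' * Real.exp (-(c' * i))
            ≤ A * Real.exp (-(d * i)) + A' * Real.exp (-(d * i)) := by gcongr
          _ = (A + A') * Real.exp (-(d * i)) := by ring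
          _ ≤ B * Real.exp (-(d * i)) := by gcongr; exact le_max_left _ _)
    have h1 : variance X (PE q) = variance (fun ω => X ω - mu q * (2 * n)) (PE q) :=
      (variance_sub_const hXm.aestronglyMeasurable _).symm
    have h2 : variance (fun ω => X ω - mu q * (2 * n)) (PE q) ≤
        ∫ ω, (X ω - mu q * (2 * n)) ^ 2 ∂(PE q) := by
      have := variance_le_expectation_sq (μ := PE q) (X := fun ω => X ω - mu q * (2 * n))
        (hXm.sub_const _).aestronglyMeasurable
      simpa using this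
    have h3 : ∫ ω, (X ω - mu q * (2 * n)) ^ 2 ∂(PE q) = s ^ 2 * ∫ ω, Y ω ^ 2 ∂(PE q) := by
      rw [← integral_const_mul]
      refine integral_congr_ae (Filter.Eventually.of_forall fun ω => ?_)
      simp only [hY]
      rw [div_pow, sq_abs]
      field_simp
    rw [h1]
    calc variance (fun ω => X ω - mu q * (2 * n)) (PE q)
        ≤ s ^ 2 * ∫ ω, Y ω ^ 2 ∂(PE q) := by rw [← h3]; exact h2
      _ ≤ s ^ 2 * K := by gcongr
      _ ≤ (K + 1) * s ^ 2 := by nlinarith [sq_nonneg s]

end Pool.Agent.H65.GL
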